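import Pool.Agent.helper95.T6.SpecE
import Pool.Agent.helper43.T5.RE1
import Pool.Agent.helper71.T5.RE2

/-! Row t6l:ECB (MP_16912e_nt) -/

set_option autoImplicit false

namespace Pool.Agent.T6

open Finset Pool.Agent.helper3.FT Pool.Agent.T5

theorem ECB : ECB_stmt := by
  intro n k e hn hk he hco hne hke
  have hnz : (n : ℝ) ≠ 0 := by positivity
  have hkz : (k : ℝ) ≠ 0 := by positivity
  have hez : (e : ℝ) ≠ 0 := by positivity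
  have hcz : IsCoprime (n : ℤ) (k : ℤ) := Nat.isCoprime_iff_coprime.mpr hco
  have hce : IsCoprime (n : ℤ) (e : ℤ) := by
    obtain ⟨w, hw⟩ := hne
    exact ⟨1, -w, by linear_combination hw⟩
  have hc : IsCoprime ((n : ℤ) * 1) ((k : ℤ) * e) := by
    rw [mul_one]
    exact hcz.mul_right hce
  obtain ⟨α, β, γ, hR⟩ := RE1 (n : ℤ) k 1 1 1 e hc isCoprime_one_left isCoprime_one_left
  obtain ⟨c₀, h0⟩ := RE2 (n : ℤ) k 1 1 1 e α β γ hc isCoprime_one_left isCoprime_one_left hR 1 0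
  have hR1 : ResG n k 1 1 1 1 α β γ := by
    have hd : (k : ℤ) * 1 ∣ (k : ℤ) * e := mul_dvd_mul_left _ (one_dvd _)
    exact ⟨hR.hα, hR.hβ, hR.hγ, hd.trans hR.kα, hd.trans hR.kβ, hd.trans hR.kγ⟩
  refine ⟨α, β, γ, hR1, (β : ℝ) / ((n : ℝ) ^ 3 * k), 2 * (γ : ℝ) / ((n : ℝ) ^ 3 * k), ((γ : ℝ) + c₀) / ((n : ℝ) ^ 3 * k * e), ?_⟩
  intro m' g'
  refine ⟨α * ((e : ℤ) * m') ^ 2 + β * ((e : ℤ) * m') * (1 + (e : ℤ) * g') + γ * (1 + (e : ℤ) * g') ^ 2 + c₀, ?_, ?_⟩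
  · push_cast
    field_simp
    ring
  · intro z'
    obtain ⟨z, hz⟩ : ∃ z : ℤ, z = α * ((e : ℤ) * m') ^ 2 + β * ((e : ℤ) * m') * (1 + (e : ℤ) * g') + γ * (1 + (e : ℤ) * g') ^ 2 + c₀ +
      (n : ℤ) ^ 3 * k * e * z' := ⟨_, rfl⟩
    rw [← hz]
    obtain ⟨h1, h2⟩ := (h0 ((e : ℤ) * m') (1 + (e : ℤ) * g') z).1 ⟨z', by rw [hz]; ring⟩
    refine ⟨⟨hn, hk, hco, ?_, ?_⟩, ⟨hne, hke, ⟨m', rfl⟩, ⟨g', by ring⟩, ?_⟩⟩
    · obtain ⟨w, hw⟩ := h1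
      exact ⟨w, by simp only; linear_combination hw⟩
    · obtain ⟨w, hw⟩ := h2
      exact ⟨-((e : ℤ) * w) - 1, by simp only; linear_combination (-1 : ℤ) * hw⟩
    · obtain ⟨w, hw⟩ := h2
      obtain ⟨w1, hw1⟩ := hne
      obtain ⟨w2, hw2⟩ := hke
      refine ⟨k * w - z * (n + 1) * w1 + e * m' ^ 2 + w2, ?_⟩
      simp only
      linear_combination hw - z * (n + 1) * hw1 + hw2

end Pool.Agent.T6
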