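import Pool.Agent.helper3.T6.SpecH

set_option autoImplicit false

/-!
# T6, row HROW
-/

namespace Pool.Agent.T6

open Finset NumberField Pool.Agent.helper3.FT Pool.Agent.helper47.RA Pool.Agent.T5
open scoped nonZeroDivisors

theorem HROW_cont {K : Type} [Field K] [NumberField K] (Q : QF K) (a : Ideal (𝓞 K)) (e₁ e₂ : 𝓞 K)
    (ha : a ≠ ⊥) (hRB : Pool.Agent.helper26.T5.RB Q (a ^ 2) e₁ e₂) (j x : ℤ) (e : ℕ) (hj : |j| = 2 ^ e)
    (hx : Odd x) (q : ℕ) (hq : q.Prime) :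
    ¬ Ideal.span {(q : 𝓞 K)} * a ^ 2 ∣ Ideal.span {(x : 𝓞 K) * e₁ + j * e₂} := by
  intro hdvd
  rw [Ideal.dvd_span_singleton, Ideal.mem_span_singleton_mul] at hdvd
  obtain ⟨β, hβ, hβ2⟩ := hdvd
  obtain ⟨x', y', hxy⟩ := hRB.sp β hβ
  have h0 : ((x - q * x' : ℤ) : 𝓞 K) * e₁ + ((j - q * y' : ℤ) : 𝓞 K) * e₂ = 0 := by
    have : ((x - q * x' : ℤ) : 𝓞 K) * e₁ + ((j - q * y' : ℤ) : 𝓞 K) * e₂ =
        ((x : 𝓞 K) * e₁ + j * e₂) - (q : 𝓞 K) * (x' * e₁ + y' * e₂) := by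
      push_cast
      ring
    rw [this, ← hxy, hβ2, sub_self]
  have hne : Q.Y (Q.cj e₁ * e₂) ≠ 0 := by
    intro h
    have h2 := hRB.det
    rw [h, abs_zero] at h2
    have h3 : Ideal.absNorm (a ^ 2) = 0 := by exact_mod_cast h2.symm
    rw [Ideal.absNorm_eq_zero_iff] at h3
    exact ha (pow_eq_zero_iff (two_ne_zero) |>.1 (by simpa using h3))
  have h1 := Pool.Agent.helper26.T5.lbb_bilin Q e₁ e₂ 1 0 (x - q * x') (j - q * y')
  rw [h0, mul_zero] at h1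
  have hY0 : Q.Y (0 : 𝓞 K) = 0 := by
    have := Q.Y_int 0
    rwa [Int.cast_zero] at this
  rw [hY0] at h1
  have h2 : j - q * y' = 0 := by
    have h3 : (1 * (j - q * y') - 0 * (x - q * x')) * Q.Y (Q.cj e₁ * e₂) = 0 := h1.symm
    rcases mul_eq_zero.1 h3 with h4 | h4
    · linarith
    · exact absurd h4 hne
  rw [h2, Int.cast_zero, zero_mul, add_zero] at h0
  have h3 : x - q * x' = 0 := by
    rcases mul_eq_zero.1 h0 with h4 | h4
    · exact_mod_cast h4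
    · exact absurd h4 hRB.ne
  have hqj : (q : ℤ) ∣ 2 ^ e := by
    rw [← hj, dvd_abs]
    exact ⟨y', by linarith⟩
  have hq2 : q ∣ 2 ^ e := by exact_mod_cast hqj
  have hq3 : q = 2 := (Nat.prime_dvd_prime_iff_eq hq Nat.prime_two).1 (hq.dvd_of_dvd_pow hq2)
  subst hq3
  obtain ⟨m, hm⟩ := hx
  push_cast at h3
  omega

theorem HROW (hHGEO : HGEO_stmt) : HROW_stmt := by
  intro K _ _ Q hD a θ e₁ e₂ hPa ha hθ hRB T hT h5 h300
  obtain ⟨E, hEn, hEi, hEc, hnn, -⟩ := Pool.Agent.helper26.T5.lemb K Q hD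
  set Z : ℝ := (Ideal.absNorm a : ℝ) with hZ
  set s : ℝ := √|(Q.D : ℝ)| with hs
  have hZ1 : 1 ≤ Z := by
    have : Ideal.absNorm a ≠ 0 := by rwa [Ne, Ideal.absNorm_eq_zero_iff]
    rw [hZ]
    exact_mod_cast Nat.one_le_iff_ne_zero.2 this
  have hZ0 : 0 < Z := by linarith
  have hDr : (Q.D : ℝ) < 0 := by exact_mod_cast hD
  have hs0 : 0 < s := Real.sqrt_pos.2 (abs_pos.2 hDr.ne)
  have hsD : √(-(Q.D : ℝ)) = s := by rw [hs, abs_of_neg hDr]
  have hTs : 0 < √T := Real.sqrt_pos.2 hT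
  have hTT : √T * √T = T := Real.mul_self_sqrt hT.le
  -- the generator
  have hnθ : (Pool.Agent.helper26.T5.nn θ : ℝ) = Z ^ 5 := by
    unfold Pool.Agent.helper26.T5.nn
    rw [hθ, map_pow, hZ]
    push_cast
    ring
  have hvθ : Q.v₁ θ ^ 2 = Z ^ 5 := by rw [← hnn, hnθ]
  have hvθ0 : 0 < Q.v₁ θ := by
    refine lt_of_le_of_ne (Q.v₁_nonneg θ) fun h => ?_
    rw [← h] at hvθ
    have : 0 < Z ^ 5 := by positivity
    rw [← hvθ] at this
    norm_num at this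
  have hEθ : ‖E θ‖ = Q.v₁ θ := hEn θ
  have hEθ0 : E θ ≠ 0 := by
    intro h
    rw [h, norm_zero] at hEθ
    linarith
  set τ : ℂ := E θ / (Q.v₁ θ : ℂ) with hτ
  have hvC : (Q.v₁ θ : ℂ) ≠ 0 := by exact_mod_cast hvθ0.ne'
  have hτn : ‖τ‖ = 1 := by
    rw [hτ, norm_div, hEθ, Complex.norm_real, Real.norm_of_nonneg hvθ0.le, div_self hvθ0.ne']
  have hττ : (starRingEnd ℂ) τ * τ = 1 := by
    rw [mul_comm, Complex.mul_conj, Complex.normSq_eq_norm_sq, hτn]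
    norm_num
  -- determinant
  have hdet : |((starRingEnd ℂ) (E e₁) * E e₂).im| = Z ^ 2 * s / 2 := by
    rw [← hEc, ← map_mul, hEi, abs_mul, abs_of_pos (by positivity : (0 : ℝ) < s / 2)]
    have h1 : |(Q.Y (Q.cj e₁ * e₂) : ℝ)| = Z ^ 2 := by
      have h2 := hRB.det
      rw [map_pow] at h2
      rw [hZ, ← Int.cast_abs, h2]
      push_cast
      ring
    rw [h1]
    ring
  have hne : ‖E e₁‖ = Q.v₁ e₁ := hEn e₁
  obtain ⟨j, x₀, e, hj, hjV, hrow⟩ := hHGEO (E e₁) (E e₂) τ (Z * √T) (Z ^ 2 * s / 2) (by positivity) hdet hτn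
    (by
      rw [hne]
      nlinarith [mul_le_mul_of_nonneg_left h5 hZ0.le])
    (by rw [hne]; exact h300)
  rw [hne] at hjV
  refine ⟨j, x₀, ?_, ?_, ?_⟩
  · intro h
    rw [h, abs_zero] at hj
    have : (0 : ℤ) < 2 ^ e := by positivity
    omega
  · have h1 : Z * (|(j : ℝ)| * (Z * s)) ≤ Z * (2 * (√T * Q.v₁ e₁)) := by nlinarith
    exact le_of_mul_le_mul_left h1 hZ0
  · intro x hx hx2 hodd
    obtain ⟨z1, z2, z3, z4⟩ := hrow x hx (by rw [hne]; exact hx2)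
    set α : 𝓞 K := (x : 𝓞 K) * e₁ + j * e₂ with hα
    have hEα : E α = (x : ℂ) * E e₁ + j * E e₂ := by
      rw [hα, map_add, map_mul, map_mul, map_intCast, map_intCast]
    rw [← hEα] at z1 z2 z3 z4
    have hEαn : ‖E α‖ = Q.v₁ α := hEn α
    rw [hEαn] at z1 z2 z3 z4
    have hvα : 0 < Q.v₁ α := lt_of_lt_of_le (by positivity) z1
    have hYα : (Q.Y α : ℝ) * (s / 2) = (E α).im := (hEi α).symm
    have hYα0 : 0 < Q.Y α := by
      have h1 : 0 < (Q.Y α : ℝ) * (s / 2) := by rw [hYα]; linarith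
      have h2 : (0 : ℝ) < (Q.Y α : ℝ) := by
        by_contra h3
        have := mul_nonpos_of_nonpos_of_nonneg (not_lt.1 h3) (by positivity : (0 : ℝ) ≤ s / 2)
        linarith
      exact_mod_cast h2
    have hαm : α ∈ a ^ 2 := by
      rw [hα]
      exact Ideal.add_mem _ (Ideal.mul_mem_left _ _ hRB.m1) (Ideal.mul_mem_left _ _ hRB.m2)
    have hα0 : α ≠ 0 := by
      intro h
      have h1 : ‖E α‖ = 0 := by rw [h, map_zero, norm_zero]
      rw [hEαn] at h1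
      linarith
    have hAL : Q.v₁ α ^ 2 ≤ Z ^ 2 * T := by
      have h1 := pow_le_pow_left₀ hvα.le z2 2
      calc Q.v₁ α ^ 2 ≤ (Z * √T) ^ 2 := h1
        _ = Z ^ 2 * (√T * √T) := by ring
        _ = Z ^ 2 * T := by rw [hTT]
    obtain ⟨γ, hγ⟩ := (Pool.Agent.helper26.T5.lga K Q a θ ha hθ α hαm).1
    -- gamma
    have hEγ : E γ * E θ = (Z : ℂ) * E α ^ 2 := by
      rw [← map_mul, hγ, map_mul, map_natCast, map_pow, hZ]
      push_cast
      ring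
    have hEγ2 : E γ = ((Z / Q.v₁ θ : ℝ) : ℂ) * ((starRingEnd ℂ) τ * E α ^ 2) := by
      have h1 : E θ = (Q.v₁ θ : ℂ) * τ := by
        rw [hτ]
        field_simp
      have h2 : E γ * (Q.v₁ θ : ℂ) * τ = (Z : ℂ) * E α ^ 2 := by
        rw [← hEγ, h1]
        ring
      have h3 : E γ * (Q.v₁ θ : ℂ) = (Z : ℂ) * ((starRingEnd ℂ) τ * E α ^ 2) := by
        calc E γ * (Q.v₁ θ : ℂ) = E γ * (Q.v₁ θ : ℂ) * ((starRingEnd ℂ) τ * τ) := by rw [hττ, mul_one]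
          _ = (starRingEnd ℂ) τ * (E γ * (Q.v₁ θ : ℂ) * τ) := by ring
          _ = (starRingEnd ℂ) τ * ((Z : ℂ) * E α ^ 2) := by rw [h2]
          _ = (Z : ℂ) * ((starRingEnd ℂ) τ * E α ^ 2) := by ring
      rw [Complex.ofReal_div, div_mul_eq_mul_div, eq_div_iff hvC, h3]
    have hvγ : Q.v₁ γ * Q.v₁ θ = Z * Q.v₁ α ^ 2 := by
      rw [← hEn γ, ← hEn θ, ← hEn α, ← norm_mul, hEγ, norm_mul, norm_pow, Complex.norm_real,
        Real.norm_of_nonneg hZ0.le]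
    have hvγ2 : Q.v₁ γ = Z / Q.v₁ θ * Q.v₁ α ^ 2 := by
      field_simp
      linarith
    have hYγ : |(Q.Y γ : ℝ)| * (s / 2) = |(E γ).im| := by
      rw [hEi γ, abs_mul, abs_of_pos (by positivity : (0 : ℝ) < s / 2)]
    have himγ : Q.v₁ γ ≤ 10 * |(E γ).im| := by
      rw [hEγ2, Complex.im_ofReal_mul, abs_mul, abs_of_pos (by positivity : (0 : ℝ) < Z / Q.v₁ θ), hvγ2]
      have := mul_le_mul_of_nonneg_left z4 (by positivity : (0 : ℝ) ≤ Z / Q.v₁ θ)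
      linarith
    have hvγ0 : 0 < Q.v₁ γ := by
      rw [hvγ2]
      positivity
    have hYγ0 : Q.Y γ ≠ 0 := by
      intro h
      rw [h, Int.cast_zero, abs_zero, zero_mul] at hYγ
      rw [← hYγ] at himγ
      linarith
    have hLam : Q.v₁ α ^ 2 = Z ^ 2 * (lamI a α : ℝ) := by
      have h1 := (Pool.Agent.helper26.T5.AllL.aLAW K Q a α 2 hPa ha Nat.prime_two hα0 hαm).1
      rw [← hnn α, h1, hZ]
      push_cast
      ring
    have hLam0 : (0 : ℝ) ≤ (lamI a α : ℝ) := Nat.cast_nonneg _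
    refine ⟨⟨hαm, hYα0, hAL⟩, γ, ⟨ha, hPa, hαm, hYα0, ⟨θ, hθ.symm, hγ⟩, hYγ0,
      fun q hq => HROW_cont Q a e₁ e₂ ha hRB j x e hj hodd q hq⟩, ?_⟩
    intro Y₂ hY₂
    refine ⟨?_, ?_, ?_⟩
    · have h1 : (Z * √T / 4) ^ 2 ≤ Z ^ 2 * (lamI a α : ℝ) := by
        rw [← hLam]
        exact pow_le_pow_left₀ (by positivity) z1 2
      have h2 : (Z * √T / 4) ^ 2 = Z ^ 2 * (T / 16) := by
        calc (Z * √T / 4) ^ 2 = Z ^ 2 * (√T * √T) / 16 := by ring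
          _ = Z ^ 2 * (T / 16) := by rw [hTT]; ring
      rw [h2] at h1
      have h3 := le_of_mul_le_mul_left h1 (by positivity)
      linarith
    · have h1 : Z * √(lamI a α : ℝ) = Q.v₁ α := by
        rw [← Real.sqrt_sq hvα.le, hLam, Real.sqrt_mul (by positivity), Real.sqrt_sq hZ0.le]
      rw [hsD]
      nlinarith
    · have h1 : Q.v₁ γ = √Z * (lamI a α : ℝ) := by
        have h2 : √Z * √Z = Z := Real.mul_self_sqrt hZ0.le
        have h3 : Q.v₁ θ = Z ^ 2 * √Z := by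
          have h4 : (Z ^ 2 * √Z) ^ 2 = Q.v₁ θ ^ 2 := by
            rw [hvθ]
            calc (Z ^ 2 * √Z) ^ 2 = Z ^ 4 * (√Z * √Z) := by ring
              _ = Z ^ 5 := by rw [h2]; ring
          exact ((pow_left_inj₀ (by positivity) hvθ0.le two_ne_zero).1 h4).symm
        have h5 : Q.v₁ γ * Q.v₁ θ = √Z * (lamI a α : ℝ) * Q.v₁ θ := by
          rw [hvγ, hLam, h3]
          calc Z * (Z ^ 2 * (lamI a α : ℝ)) = Z ^ 2 * (lamI a α : ℝ) * Z := by ring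
            _ = Z ^ 2 * (lamI a α : ℝ) * (√Z * √Z) := by rw [h2]
            _ = √Z * (lamI a α : ℝ) * (Z ^ 2 * √Z) := by ring
        exact mul_right_cancel₀ hvθ0.ne' h5
      rw [hsD, mul_assoc (2 * (1 / 100)) (√(Ideal.absNorm a : ℝ)) _, ← hZ, ← h1]
      nlinarith

end Pool.Agent.T6
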